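import Pool.Agent.R545.IN.Ramsey

set_option autoImplicit false

/-!
# Two elements of degree three without common neighbour

A symmetric relation without triangles and circuits of length four, and a set `T` of at least eleven
elements of degree at most three, not contained in a closed neighbourhood: two elements of `T` have
distance at least three.
-/

namespace Pool.Agent.U605.DD

open Finset Pool.Agent.R545.IN

variable {V : Type} [Fintype V] [DecidableEq V] {R : V → V → Prop} [∀ y, DecidablePred (R y)]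

/-- if all pairs in `T` are near, every vertex has at most three neighbours in `T` -/
theorem card_nb_le (h : Good R) {T : Finset V} (h3 : ∀ x ∈ T, (univ.filter (R x)).card ≤ 3)
    (hout : ∀ a, ∃ y ∈ T, y ≠ a ∧ ¬ R a y)
    (hnear : ∀ x ∈ T, ∀ y ∈ T, x ≠ y → R x y ∨ ∃ z, R x z ∧ R z y) (a : V) :
    (T.filter (R a)).card ≤ 3 := by
  classical
  obtain ⟨y, hy, hya, hay⟩ := hout a
  have hex : ∀ z ∈ T.filter (R a), ∃ w, R y w ∧ (w = z ∨ R z w) := by
    intro z hz
    obtain ⟨hzT, haz⟩ := mem_filter.1 hz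
    have hzy : z ≠ y := fun h0 => hay (h0 ▸ haz)
    rcases hnear z hzT y hy hzy with h1 | ⟨w, h1, h2⟩
    · exact ⟨z, h.symm h1, Or.inl rfl⟩
    · exact ⟨w, h.symm h2, Or.inr h1⟩
  choose! w hw hw' using hex
  refine le_trans ?_ (h3 y hy)
  refine card_le_card_of_injOn w (fun z hz => ?_) ?_
  · exact mem_filter.2 ⟨mem_univ _, hw z hz⟩
  · intro z hz z' hz' hww
    by_contra hne
    have h1 := (mem_filter.1 hz).2
    have h2 := (mem_filter.1 hz').2
    have hwa : w z ≠ a := fun h0 => hay (h.symm (h0 ▸ hw z hz))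
    rcases hw' z hz with h4 | h4 <;> rcases hw' z' hz' with h5 | h5
    · exact hne (h4.symm.trans (hww.trans h5))
    · rw [← hww, h4] at h5
      exact h.tri h2 h5 (h.symm h1)
    · rw [hww, h5] at h4
      exact h.tri h1 h4 (h.symm h2)
    · rw [← hww] at h5
      exact h.four hwa.symm hne h1 h4 (h.symm h5) (h.symm h2)

/-- two elements of `T` at distance at least three -/
theorem exists_far (h : Good R) {T : Finset V} (h3 : ∀ x ∈ T, (univ.filter (R x)).card ≤ 3)
    (hout : ∀ a, ∃ y ∈ T, y ≠ a ∧ ¬ R a y) (hc : 11 ≤ T.card) :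
    ∃ x ∈ T, ∃ y ∈ T, x ≠ y ∧ ¬ R x y ∧ ∀ z, ¬ (R x z ∧ R z y) := by
  classical
  by_contra hcon
  have hnear : ∀ x ∈ T, ∀ y ∈ T, x ≠ y → R x y ∨ ∃ z, R x z ∧ R z y := by
    intro x hx y hy hxy
    by_contra h0
    rw [not_or] at h0
    exact hcon ⟨x, hx, y, hy, hxy, h0.1, fun z hz => h0.2 ⟨z, hz⟩⟩
  obtain ⟨x, hx⟩ : T.Nonempty := card_pos.1 (by omega)
  have hsub : T ⊆ insert x ((univ.filter (R x)).biUnion
      (fun z => insert z ((T.filter (R z)).erase x))) := by
    intro y hy
    by_cases hxy : x = y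
    · rw [hxy]; exact mem_insert_self _ _
    · refine mem_insert_of_mem (mem_biUnion.2 ?_)
      rcases hnear x hx y hy hxy with h1 | ⟨z, h1, h2⟩
      · exact ⟨y, mem_filter.2 ⟨mem_univ _, h1⟩, mem_insert_self _ _⟩
      · exact ⟨z, mem_filter.2 ⟨mem_univ _, h1⟩,
          mem_insert_of_mem (mem_erase.2 ⟨Ne.symm hxy, mem_filter.2 ⟨hy, h2⟩⟩)⟩
  have hb : ∀ z ∈ univ.filter (R x), (insert z ((T.filter (R z)).erase x)).card ≤ 3 := by
    intro z hz
    have h1 := (mem_filter.1 hz).2
    have h2 : x ∈ T.filter (R z) := mem_filter.2 ⟨hx, h.symm h1⟩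
    have h4 := card_erase_of_mem h2
    have h5 := card_nb_le h h3 hout hnear z
    have h6 := card_insert_le z ((T.filter (R z)).erase x)
    omega
  have h1 := card_le_card hsub
  have h2 := card_insert_le x ((univ.filter (R x)).biUnion
      (fun z => insert z ((T.filter (R z)).erase x)))
  have h4 := card_biUnion_le_card_mul (univ.filter (R x))
    (fun z => insert z ((T.filter (R z)).erase x)) 3 hb
  have h5 := h3 x hx
  have h6 : (univ.filter (R x)).card * 3 ≤ 3 * 3 := Nat.mul_le_mul_right 3 h5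
  omega

end Pool.Agent.U605.DD
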