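import Pool.Agent.U605.DD.Lift
import Pool.Agent.U605.DD.Rel
import Pool.Agent.N410.DC.Far
import Pool.Agent.U875.TP.Class

set_option autoImplicit false
set_option linter.unusedSectionVars false
set_option synthInstance.maxHeartbeats 400000
set_option synthInstance.maxSize 2048

/-!
# Graphs without wide spread sets have no minimal quotient
-/

namespace Pool.Agent.U605.DD

open Finset Pool.Agent.TH362.TF Pool.Agent.TH362.TF.Four Pool.Agent.R890.FF
open Pool.Agent.U875.TP Pool.Agent.N410.DC
open Pool.Agent.R545.IN (Good Thr Ind thr5 good_nb)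

variable {V E : Type} [Fintype V] [DecidableEq V] [Fintype E] [DecidableEq E]

/-- the number of vertices of degree three is greater than the number of neighbours of a vertex plus
one -/
theorem three_ge {s t : E → V} (h : Mq s t univ) (a : V) :
    (ct s t a).card + 2 ≤ (univ.filter (fun y => (ct s t y).card = 3)).card := by
  classical
  set d : V → ℕ := fun y => (ct s t y).card with hd
  have h12 := twelve h
  rcases Nat.lt_or_ge (d a) 5 with hlt | hge
  · change d a + 2 ≤ _
    omega
  have hd1 : ∀ y, d y ≠ 1 := fun y => h.n1 _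
  have hd2 : ∀ y, d y ≠ 2 := fun y => by
    have h1 := h.nb_ne_two y
    rw [← h.cut_nb y] at h1
    exact h1
  set N : Finset V := univ.filter (fun y => d y ≠ 0) with hN
  have hN3 : ∀ y ∈ N, 3 ≤ d y := by
    intro y hy
    have h1 := (mem_filter.1 hy).2
    have h2 := hd1 y
    have h3 := hd2 y
    omega
  have heN : eIn s t univ = eIn s t N := by
    refine (Subset.antisymm (fun e he => ?_) (eIn_mono s t (subset_univ _)))
    have h1 := mem_eIn.1 he
    have h2 : ∀ y, e ∈ ct s t y → y ∈ N := fun y hy =>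
      mem_filter.2 ⟨mem_univ _, (card_pos.2 ⟨e, hy⟩).ne'⟩
    refine mem_eIn.2 ⟨h2 _ ?_, h2 _ ?_, h1.2.2⟩
    · rw [mem_ct]
      intro h3
      exact h1.2.2 (h3.1 rfl).symm
    · rw [mem_ct]
      intro h3
      exact h1.2.2 (h3.2 rfl)
  have hsum : ∑ y ∈ N, d y = 2 * (eIn s t N).card := by
    rw [← heN, ← sum_ct s t]
    refine sum_subset (subset_univ _) fun y _ hy => ?_
    by_contra h0
    exact hy (mem_filter.2 ⟨mem_univ _, h0⟩)
  have haN : a ∈ N := mem_filter.2 ⟨mem_univ _, by omega⟩
  have hNc : 12 ≤ N.card := by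
    refine h12.trans (card_le_card fun y hy => ?_)
    have h1 : d y = 3 := (mem_filter.1 hy).2
    exact mem_filter.2 ⟨mem_univ _, by omega⟩
  have hsp := sparse h N (by omega)
  have hc1 : ∑ y ∈ N, (4 + if y = a then d a - 4 else 0) ≤
      ∑ y ∈ N, (d y + if d y = 3 then 1 else 0) := by
    refine sum_le_sum fun y hy => ?_
    have h1 := hN3 y hy
    by_cases hya : y = a
    · subst hya
      split_ifs <;> omega
    · rw [if_neg hya]
      split_ifs <;> omega
  rw [sum_add_distrib, sum_add_distrib, sum_const, smul_eq_mul, sum_boole, sum_ite_eq' N a,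
    if_pos haN] at hc1
  have h3 : (N.filter (fun y => d y = 3)).card ≤ (univ.filter (fun y => d y = 3)).card :=
    card_le_card (filter_subset_filter _ (subset_univ _))
  simp only [Nat.cast_id] at hc1
  change d a + 2 ≤ (univ.filter (fun y => d y = 3)).card
  omega

/-- two vertices of degree three at distance at least three -/
theorem two_far {s t : E → V} (h : Mq s t univ) :
    ∃ x y, (ct s t x).card = 3 ∧ (ct s t y).card = 3 ∧ x ≠ y ∧ ¬ Nb s t univ x y ∧
      ∀ z, ¬ (Nb s t univ x z ∧ Nb s t univ z y) := by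
  classical
  have hN : ∀ a, (univ.filter (Nb s t univ a)).card = (ct s t a).card := fun a => (h.cut_nb a).symm
  obtain ⟨x, hx, y, hy, h1, h2, h3⟩ := exists_far (good_nb h)
    (T := univ.filter (fun y => (ct s t y).card = 3))
    (fun x hx => by
      rw [hN x]
      exact (mem_filter.1 hx).2.le)
    (fun a => by
      by_contra hcon
      have hsub : univ.filter (fun y => (ct s t y).card = 3) ⊆
          insert a (univ.filter (Nb s t univ a)) := by
        intro y hy
        rw [mem_insert, mem_filter]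
        by_contra h0
        rw [not_or] at h0
        exact hcon ⟨y, hy, h0.1, fun h4 => h0.2 ⟨mem_univ _, h4⟩⟩
      have h1 := card_le_card hsub
      have h2 := card_insert_le a (univ.filter (Nb s t univ a))
      have h3 := three_ge h a
      have h4 := hN a
      omega)
    (le_trans (by decide) (twelve h))
  exact ⟨x, y, (mem_filter.1 hx).2, (mem_filter.1 hy).2, h1, h2, h3⟩

theorem within_one {s t : E → V} {x y : V} (h : Within s t 1 x y) :
    x = y ∨ Nb s t univ x y := by
  rcases h with h | ⟨z, e, h, he⟩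
  · exact Or.inl h
  · have h0 : x = z := h
    subst h0
    by_cases hxy : x = y
    · exact Or.inl hxy
    · exact Or.inr ⟨Ne.symm hxy, e, mem_univ _, he⟩

theorem within_two {s t : E → V} {x y : V} (h : Within s t 2 x y) :
    x = y ∨ Nb s t univ x y ∨ ∃ z, Nb s t univ x z ∧ Nb s t univ z y := by
  rcases h with h | ⟨z, e, h, he⟩
  · exact (within_one h).imp_right Or.inl
  · rcases within_one h with h | h
    · subst h
      by_cases hxy : x = y
      · exact Or.inl hxy
      · exact Or.inr (Or.inl ⟨Ne.symm hxy, e, mem_univ _, he⟩)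
    · by_cases hzy : z = y
      · subst hzy
        exact Or.inr (Or.inl h)
      · exact Or.inr (Or.inr ⟨z, h, Ne.symm hzy, e, mem_univ _, he⟩)

/-- **Theorem.** A graph without wide spread sets has no minimal quotient. -/
theorem noMq_of_spread {s t : E → V} (h : NoWideSpread s t) : NoMq s t := by
  classical
  intro π hM
  obtain ⟨d, r, hd4, hcyc, hZ⟩ := h
  set s' : E → V := fun e => π (s e) with hs'
  set t' : E → V := fun e => π (t e) with ht'
  have hd1 : ∀ y, (ct s' t' y).card ≠ 1 := fun y => hM.n1 _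
  have hd2 : ∀ y, (ct s' t' y).card ≠ 2 := fun y => by
    have h1 := hM.nb_ne_two y
    rw [← hM.cut_nb y] at h1
    exact h1
  set B : Finset V := univ.filter (fun y => 1 ≤ (ct s' t' y).card ∧ (ct s' t' y).card < d) with hB
  have hex : ∀ y ∈ B, ∃ v, π v = y ∧ (nbrs s t v).Nonempty ∧
      ∀ w, Within s t (radius s t d r v) v w → π w = y := fun y hy =>
    deep_ball π hcyc (mem_filter.1 hy).2.1 (mem_filter.1 hy).2.2
  choose! g hg1 hg2 hg3 using hex
  have hinj : Set.InjOn g (B : Set V) := by
    intro y hy y' hy' hyy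
    rw [← hg1 y hy, ← hg1 y' hy', hyy]
  have hT : univ.filter (fun y => (ct s' t' y).card = 3) ⊆ B := by
    intro y hy
    have h1 := (mem_filter.1 hy).2
    exact mem_filter.2 ⟨mem_univ _, by omega, by omega⟩
  have lift : ∀ k, ∀ y ∈ B, ∀ y' ∈ B, ¬ Within s' t' k y y' → Apart s t d r k (g y) (g y') := by
    intro k y hy y' hy' hno hw
    have h1 := within_deep π d r (fun w hw => (hg3 y hy w hw).trans (hg1 y hy).symm)
      (fun w hw => (hg3 y' hy' w hw).trans (hg1 y' hy').symm) hw
    rw [hg1 y hy, hg1 y' hy'] at h1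
    exact hno h1
  refine hZ (B.image g) ?_ ⟨?_, ?_⟩ ⟨?_, ?_⟩
  · rw [card_image_of_injOn hinj]
    obtain ⟨I, hI18, hIodd, hIsum⟩ := eighteen hM
    have hc : ∑ y ∈ I, (3 + (2 * (d / 2) - 2) * (if d ≤ (ct s' t' y).card then 1 else 0)) ≤
        ∑ y ∈ I, (ct s' t' y).card := by
      refine sum_le_sum fun y hy => ?_
      have h1 := Nat.odd_iff.1 (hIodd y hy)
      have h2 := hd1 y
      split_ifs <;> omega
    rw [sum_add_distrib, sum_const, smul_eq_mul, ← mul_sum, sum_boole, hI18] at hc
    simp only [Nat.cast_id] at hc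
    set J := I.filter (fun y => d ≤ (ct s' t' y).card) with hJ
    have h2 : 1 ≤ d / 2 - 1 := by omega
    have h3 : J.card * (d / 2 - 1) ≤ 6 := by
      have h4 : (2 * (d / 2) - 2) * J.card = 2 * (J.card * (d / 2 - 1)) := by
        rw [← Nat.mul_sub_one 2 (d / 2)]
        ring
      omega
    have h4 : J.card ≤ 6 / (d / 2 - 1) := (Nat.le_div_iff_mul_le h2).2 h3
    have h5 : I \ J ⊆ B := by
      intro y hy
      rw [mem_sdiff] at hy
      refine mem_filter.2 ⟨mem_univ _, ?_, ?_⟩
      · have h6 := Nat.odd_iff.1 (hIodd y hy.1)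
        omega
      · by_contra h6
        exact hy.2 (mem_filter.2 ⟨hy.1, by omega⟩)
    have h6 := card_le_card h5
    have h7 := card_sdiff_add_card_eq_card (filter_subset (fun y => d ≤ (ct s' t' y).card) I)
    rw [← hJ] at h7
    omega
  · intro z hz
    obtain ⟨y, hy, rfl⟩ := mem_image.1 hz
    exact hg2 y hy
  · intro x hx x' hx' hne
    obtain ⟨y, hy, rfl⟩ := mem_image.1 hx
    obtain ⟨y', hy', rfl⟩ := mem_image.1 hx'
    exact lift 0 y hy y' hy' (fun h0 => hne (congrArg g h0))
  · obtain ⟨y, y', h1, h2, h3, h4, h5⟩ := two_far hM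
    have hy : y ∈ B := hT (mem_filter.2 ⟨mem_univ _, h1⟩)
    have hy' : y' ∈ B := hT (mem_filter.2 ⟨mem_univ _, h2⟩)
    refine ⟨g y, mem_image_of_mem _ hy, g y', mem_image_of_mem _ hy', lift 2 y hy y' hy' ?_⟩
    intro hw
    rcases within_two hw with h6 | h6 | ⟨z, h6⟩
    · exact h3 h6
    · exact h4 h6
    · exact h5 z h6
  · obtain ⟨I, hI, hIc, hi⟩ := thr5 (good_nb hM) _ (twelve hM)
    have hIB : I ⊆ B := hI.trans hT
    refine ⟨I.image g, image_subset_image hIB, ?_, ?_⟩
    · rw [card_image_of_injOn (hinj.mono (fun _ hx => hIB hx)), hIc]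
    · intro x hx x' hx' hne
      obtain ⟨y, hy, rfl⟩ := mem_image.1 hx
      obtain ⟨y', hy', rfl⟩ := mem_image.1 hx'
      refine lift 1 y (hIB hy) y' (hIB hy') ?_
      intro hw
      rcases within_one hw with h6 | h6
      · exact hne (congrArg g h6)
      · exact hi y hy y' hy' h6

end Pool.Agent.U605.DD
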