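import Mathlib

set_option autoImplicit false

/-!
# Two different paths give a short circuit
-/

namespace Pool.Agent.U605.DD

open SimpleGraph

theorem exists_cycle {V : Type} {G : SimpleGraph V} {a b : V} (p q : G.Walk a b)
    (hp : p.IsPath) (hq : q.IsPath) (hne : p ≠ q) :
    ∃ (v : V) (c : G.Walk v v), c.IsCycle ∧ c.length ≤ p.length + q.length := by
  classical
  set S : Set (Sym2 V) := {e | e ∈ p.edges} ∪ {e | e ∈ q.edges} with hS
  set H : SimpleGraph V := SimpleGraph.fromEdgeSet S with hH
  have hHG : H ≤ G := by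
    intro x y hxy
    rw [hH, SimpleGraph.fromEdgeSet_adj] at hxy
    rcases hxy.1 with h | h
    · exact p.adj_of_mem_edges h
    · exact q.adj_of_mem_edges h
  have hpe : ∀ e ∈ p.edges, e ∈ H.edgeSet := by
    intro e he
    have h1 := p.edges_subset_edgeSet he
    rw [hH, SimpleGraph.edgeSet_fromEdgeSet]
    exact ⟨Or.inl he, fun h => G.not_isDiag_of_mem_edgeSet h1 h⟩
  have hqe : ∀ e ∈ q.edges, e ∈ H.edgeSet := by
    intro e he
    have h1 := q.edges_subset_edgeSet he
    rw [hH, SimpleGraph.edgeSet_fromEdgeSet]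
    exact ⟨Or.inr he, fun h => G.not_isDiag_of_mem_edgeSet h1 h⟩
  have hac : ¬ H.IsAcyclic := by
    intro hac
    have h1 := hac.path_unique ⟨p.transfer H hpe, hp.transfer hpe⟩ ⟨q.transfer H hqe, hq.transfer hqe⟩
    have h2 : p.transfer H hpe = q.transfer H hqe := congrArg Subtype.val h1
    have h3 := congrArg Walk.support h2
    rw [Walk.support_transfer, Walk.support_transfer] at h3
    exact hne (Walk.ext_support h3)
  rw [SimpleGraph.IsAcyclic] at hac
  push Not at hac
  obtain ⟨v, c, hc⟩ := hac
  refine ⟨v, c.mapLe hHG, hc.mapLe hHG, ?_⟩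
  have h1 : (c.mapLe hHG).length = c.length := Walk.length_map _ _
  rw [h1, ← Walk.length_edges, ← List.toFinset_card_of_nodup hc.edges_nodup]
  have h2 : c.edges.toFinset ⊆ (p.edges ++ q.edges).toFinset := by
    intro e he
    rw [List.mem_toFinset] at he ⊢
    have h3 := c.edges_subset_edgeSet he
    rw [hH, SimpleGraph.edgeSet_fromEdgeSet] at h3
    rw [List.mem_append]
    exact h3.1
  refine (Finset.card_le_card h2).trans ((List.toFinset_card_le _).trans ?_)
  rw [List.length_append, Walk.length_edges, Walk.length_edges]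

end Pool.Agent.U605.DD
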