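import Pool.Agent.U875.TP.Defs

set_option autoImplicit false

/-!
# Spread sets of vertices

A finite multigraph has the vertex set `V` and the edge set `E`; the ends of the edge `e` are `s e`
and `t e` (loops and parallel edges are allowed, the order of the ends plays no role).
-/

namespace Pool.Agent.U605.DD

open Finset Pool.Agent.U875.TP

variable {V E : Type} [Fintype V] [DecidableEq V] [Fintype E] [DecidableEq E]

omit [Fintype V] [DecidableEq V] [Fintype E] [DecidableEq E] in
/-- The underlying simple graph: two different vertices are adjacent if an edge joins them. -/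
def under (s t : E → V) : SimpleGraph V where
  Adj x y := x ≠ y ∧ ∃ e, (s e = x ∧ t e = y) ∨ (s e = y ∧ t e = x)
  symm := ⟨fun _ _ h => ⟨h.1.symm, h.2.imp fun _ he => he.symm⟩⟩
  loopless := ⟨fun _ h => h.1 rfl⟩

/-- The neighbours of the vertex `v` (without `v`). -/
def nbrs (s t : E → V) (v : V) : Finset V :=
  univ.filter (fun w => w ≠ v ∧ ∃ e, (s e = v ∧ t e = w) ∨ (s e = w ∧ t e = v))

omit [Fintype V] [DecidableEq V] [Fintype E] [DecidableEq E] in
/-- There is a walk with at most `k` edges from `x` to `y`. -/
def Within (s t : E → V) : ℕ → V → V → Prop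
  | 0, x, y => x = y
  | k + 1, x, y => Within s t k x y ∨ ∃ z e, Within s t k x z ∧ IsEnds s t z y e

/-- The radius of a vertex: `r` if it has at least `d` neighbours, and zero otherwise. -/
def radius (s t : E → V) (d r : ℕ) (v : V) : ℕ :=
  if d ≤ (nbrs s t v).card then r else 0

/-- The distance of the vertices `x` and `y` is greater than `k` plus the radii of `x` and `y`. -/
def Apart (s t : E → V) (d r k : ℕ) (x y : V) : Prop :=
  ¬ Within s t (k + radius s t d r x + radius s t d r y) x y

/-- The set `Z` of vertices, none of which is isolated, is spread: the distance of any two different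
vertices of `Z` is greater than the sum of their radii. -/
def Spread (s t : E → V) (d r : ℕ) (Z : Finset V) : Prop :=
  (∀ z ∈ Z, (nbrs s t z).Nonempty) ∧ ∀ x ∈ Z, ∀ y ∈ Z, x ≠ y → Apart s t d r 0 x y

/-- The set `Z` of vertices is wide: the distance of some two vertices of `Z` is greater than two plus
the sum of their radii, and `Z` has five vertices the pairwise distances of which are greater than one
plus the sum of their radii. -/
def Wide (s t : E → V) (d r : ℕ) (Z : Finset V) : Prop :=
  (∃ x ∈ Z, ∃ y ∈ Z, Apart s t d r 2 x y) ∧
    ∃ Y : Finset V, Y ⊆ Z ∧ Y.card = 5 ∧ ∀ x ∈ Y, ∀ y ∈ Y, x ≠ y → Apart s t d r 1 x y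

/-- For some `d ≥ 4` and some `r` every circuit with at most `2 r` vertices contains a vertex with
fewer than `d` neighbours, and no spread set with at least `18 - 6 / (d / 2 - 1)` vertices (the
quotients are rounded down) is wide. -/
def NoWideSpread (s t : E → V) : Prop :=
  ∃ d r, 4 ≤ d ∧
    (∀ (v : V) (c : (under s t).Walk v v), c.IsCycle → c.length ≤ 2 * r →
      ∃ w ∈ c.support, (nbrs s t w).card < d) ∧
    ∀ Z : Finset V, 18 ≤ Z.card + 6 / (d / 2 - 1) → Spread s t d r Z → ¬ Wide s t d r Z

end Pool.Agent.U605.DD
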