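import Pool.Agent.U605.DD.Defs
import Pool.Agent.U605.DD.Cyc
import Pool.Agent.N410.DC.Cuts

set_option autoImplicit false
set_option linter.unusedSectionVars false
set_option synthInstance.maxHeartbeats 400000
set_option synthInstance.maxSize 2048

/-!
# Walks and vertices deep inside of a class of a partition
-/

namespace Pool.Agent.U605.DD

open Finset Pool.Agent.U875.TP Pool.Agent.N410.DC

variable {V E : Type} [Fintype V] [DecidableEq V] [Fintype E] [DecidableEq E] {s t : E → V}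

theorem mem_nbrs {v w : V} : w ∈ nbrs s t v ↔ w ≠ v ∧ ∃ e, IsEnds s t v w e := by
  unfold nbrs IsEnds
  rw [mem_filter]
  exact ⟨fun h => h.2, fun h => ⟨mem_univ _, h⟩⟩

theorem isEnds_comm {x y : V} {e : E} (h : IsEnds s t x y e) : IsEnds s t y x e := by
  rcases h with ⟨h1, h2⟩ | ⟨h1, h2⟩
  · exact Or.inr ⟨h1, h2⟩
  · exact Or.inl ⟨h1, h2⟩

theorem within_refl (k : ℕ) (x : V) : Within s t k x x := by
  induction k with
  | zero => rfl
  | succ k ih => exact Or.inl ih

theorem within_map (π : V → V) {k : ℕ} {x y : V} (h : Within s t k x y) :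
    Within (fun e => π (s e)) (fun e => π (t e)) k (π x) (π y) := by
  induction k generalizing y with
  | zero => exact congrArg π h
  | succ k ih =>
    rcases h with h | ⟨z, e, h, he⟩
    · exact Or.inl (ih h)
    · refine Or.inr ⟨π z, e, ih h, ?_⟩
      rcases he with ⟨h1, h2⟩ | ⟨h1, h2⟩
      · exact Or.inl ⟨congrArg π h1, congrArg π h2⟩
      · exact Or.inr ⟨congrArg π h1, congrArg π h2⟩

/-- a walk is cut into two walks -/
theorem within_split (a : ℕ) {b : ℕ} {x y : V} (h : Within s t (a + b) x y) :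
    ∃ z, Within s t a x z ∧ Within s t b z y := by
  induction b generalizing y with
  | zero => exact ⟨y, h, rfl⟩
  | succ b ih =>
    rcases h with h | ⟨w, e, h, he⟩
    · obtain ⟨z, h1, h2⟩ := ih h
      exact ⟨z, h1, Or.inl h2⟩
    · obtain ⟨z, h1, h2⟩ := ih h
      exact ⟨z, h1, Or.inr ⟨w, e, h2, he⟩⟩

theorem within_cons {k : ℕ} {x z y : V} {e : E} (he : IsEnds s t x z e) (h : Within s t k z y) :
    Within s t (k + 1) x y := by
  induction k generalizing y with
  | zero =>
    have h0 : z = y := h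
    subst h0
    exact Or.inr ⟨x, e, rfl, he⟩
  | succ k ih =>
    rcases h with h | ⟨w, f, h, hf⟩
    · exact Or.inl (ih h)
    · exact Or.inr ⟨w, f, ih h, hf⟩

theorem within_symm {k : ℕ} {x y : V} (h : Within s t k x y) : Within s t k y x := by
  induction k generalizing y with
  | zero => exact Eq.symm h
  | succ k ih =>
    rcases h with h | ⟨z, e, h, he⟩
    · exact Or.inl (ih h)
    · exact within_cons (isEnds_comm he) (ih h)

/-- short walks between deep vertices give shorter walks between the classes -/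
theorem within_deep (π : V → V) (d r : ℕ) {k : ℕ} {x y : V}
    (hx : ∀ w, Within s t (radius s t d r x) x w → π w = π x)
    (hy : ∀ w, Within s t (radius s t d r y) y w → π w = π y)
    (h : Within s t (k + radius s t d r x + radius s t d r y) x y) :
    Within (fun e => π (s e)) (fun e => π (t e)) k (π x) (π y) := by
  rw [Nat.add_comm k] at h
  obtain ⟨z, h1, h2⟩ := within_split _ h
  obtain ⟨w, h3, h4⟩ := within_split _ h1
  rw [← hx w h3, ← hy z (within_symm h2)]
  exact within_map π h4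

/-- A class with at least one and fewer than `d` boundary edges contains a vertex which is not
isolated, and which has all its neighbours in the class if it has at least `d` neighbours. -/
theorem deep (π : V → V) {d : ℕ} {y : V}
    (h1 : 1 ≤ (ct (fun e => π (s e)) (fun e => π (t e)) y).card)
    (hd : (ct (fun e => π (s e)) (fun e => π (t e)) y).card < d) :
    ∃ v, π v = y ∧ (nbrs s t v).Nonempty ∧
      (d ≤ (nbrs s t v).card → ∀ w ∈ nbrs s t v, π w = y) := by
  classical
  set C : Finset V := univ.filter (fun v => π v = y ∧ (nbrs s t v).Nonempty) with hC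
  have hCne : C.Nonempty := by
    obtain ⟨e, he⟩ := card_pos.1 h1
    rw [mem_ct] at he
    by_cases h2 : π (s e) = y
    · have h3 : π (t e) ≠ y := fun h3 => he ⟨fun _ => h3, fun _ => h2⟩
      refine ⟨s e, mem_filter.2 ⟨mem_univ _, h2, t e, mem_nbrs.2 ⟨fun h4 => ?_, e, Or.inl ⟨rfl, rfl⟩⟩⟩⟩
      exact h3 ((congrArg π h4).trans h2)
    · have h3 : π (t e) = y := by
        by_contra h3
        exact he ⟨fun h4 => absurd h4 h2, fun h4 => absurd h4 h3⟩
      refine ⟨t e, mem_filter.2 ⟨mem_univ _, h3, s e, mem_nbrs.2 ⟨fun h4 => ?_, e, Or.inr ⟨rfl, rfl⟩⟩⟩⟩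
      exact h2 ((congrArg π h4).trans h3)
  by_contra hcon
  have hno : ∀ v ∈ C, d ≤ (nbrs s t v).card ∧ ∃ w ∈ nbrs s t v, π w ≠ y := by
    intro v hv
    obtain ⟨-, hv1, hv2⟩ := mem_filter.1 hv
    by_contra h0
    refine hcon ⟨v, hv1, hv2, fun hr w hw => ?_⟩
    by_contra h2
    exact h0 ⟨hr, w, hw, h2⟩
  set c := C.card with hc
  have hc1 : 1 ≤ c := hCne.card_pos
  -- the neighbours outside
  set out : V → Finset V := fun v => (nbrs s t v).filter (fun w => π w ≠ y) with hout
  have ho1 : ∀ v ∈ C, 1 ≤ (out v).card := by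
    intro v hv
    obtain ⟨-, w, hw, hw'⟩ := hno v hv
    exact card_pos.2 ⟨w, mem_filter.2 ⟨hw, hw'⟩⟩
  have ho2 : ∀ v ∈ C, d + 1 ≤ (out v).card + c := by
    intro v hv
    have h2 : nbrs s t v ⊆ out v ∪ C.erase v := by
      intro w hw
      rw [mem_union]
      by_cases h3 : π w = y
      · right
        obtain ⟨hwv, e, he⟩ := mem_nbrs.1 hw
        refine mem_erase.2 ⟨hwv, mem_filter.2 ⟨mem_univ _, h3, v, mem_nbrs.2 ⟨hwv.symm, e, isEnds_comm he⟩⟩⟩
      · exact Or.inl (mem_filter.2 ⟨hw, h3⟩)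
    have h3 := card_le_card h2
    have h4 := card_union_le (out v) (C.erase v)
    have h5 := card_erase_of_mem hv
    have h6 := (hno v hv).1
    omega
  have hsum : ∑ v ∈ C, (out v).card ≤ (ct (fun e => π (s e)) (fun e => π (t e)) y).card := by
    rw [← card_sigma]
    have hex : ∀ p : (Σ _ : V, V), p ∈ C.sigma out → ∃ e, IsEnds s t p.1 p.2 e := by
      rintro ⟨v, w⟩ hp
      obtain ⟨hv, hw⟩ := mem_sigma.1 hp
      exact (mem_nbrs.1 (mem_filter.1 hw).1).2
    have hne : Nonempty E := by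
      obtain ⟨e, he⟩ := card_pos.1 h1
      exact ⟨e⟩
    choose! g hg using hex
    refine card_le_card_of_injOn g (fun p hp => ?_) ?_
    · obtain ⟨hv, hw⟩ := mem_sigma.1 hp
      have h2 : π p.1 = y := (mem_filter.1 hv).2.1
      have h3 : π p.2 ≠ y := (mem_filter.1 hw).2
      have h4 := hg p hp
      show g p ∈ ct (fun e => π (s e)) (fun e => π (t e)) y
      rw [mem_ct]
      rcases h4 with ⟨h5, h6⟩ | ⟨h5, h6⟩
      · rw [h5, h6]; exact fun h => h3 (h.1 h2)
      · rw [h5, h6]; exact fun h => h3 (h.2 h2)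
    · intro p hp q hq hpq
      obtain ⟨hv, hw⟩ := mem_sigma.1 hp
      have h2 : π p.1 = y := (mem_filter.1 hv).2.1
      have h3 : π p.2 ≠ y := (mem_filter.1 hw).2
      obtain ⟨hv', hw'⟩ := mem_sigma.1 hq
      have h2' : π q.1 = y := (mem_filter.1 hv').2.1
      have h3' : π q.2 ≠ y := (mem_filter.1 hw').2
      have h4 := hg p hp
      have h4' := hg q hq
      rw [← hpq] at h4'
      obtain ⟨p1, p2⟩ := p
      obtain ⟨q1, q2⟩ := q
      simp only at h2 h3 h2' h3'
      rcases h4 with ⟨h5, h6⟩ | ⟨h5, h6⟩ <;> rcases h4' with ⟨h7, h8⟩ | ⟨h7, h8⟩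
      · have e1 : p1 = q1 := h5.symm.trans h7
        have e2 : p2 = q2 := h6.symm.trans h8
        rw [e1, e2]
      · exfalso
        have e1 : p1 = q2 := h5.symm.trans h7
        exact h3' (e1 ▸ h2)
      · exfalso
        have e1 : p2 = q1 := h5.symm.trans h7
        exact h3 (e1.symm ▸ h2')
      · have e1 : p2 = q2 := h5.symm.trans h7
        have e2 : p1 = q1 := h6.symm.trans h8
        rw [e1, e2]
  rcases Nat.lt_or_ge d c with hlt | hge
  · have h2 : C.card • 1 ≤ ∑ v ∈ C, (out v).card := card_nsmul_le_sum C _ 1 ho1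
    rw [smul_eq_mul, mul_one] at h2
    omega
  · obtain ⟨k, hk⟩ := Nat.exists_eq_add_of_le hge
    have h2 : C.card • (k + 1) ≤ ∑ v ∈ C, (out v).card :=
      card_nsmul_le_sum C _ (k + 1) (fun v hv => by have := ho2 v hv; omega)
    rw [smul_eq_mul, ← hc] at h2
    have h3 : c + k ≤ c * (k + 1) := by
      obtain ⟨m, hm⟩ := Nat.exists_eq_add_of_le hc1
      rw [hm]
      nlinarith [Nat.zero_le (m * k)]
    omega

/-- the graph of a class -/
def cl (s t : E → V) (π : V → V) (y : V) : SimpleGraph V where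
  Adj a b := a ≠ b ∧ (∃ e, IsEnds s t a b e) ∧ π a = y ∧ π b = y
  symm := ⟨fun _ _ h => ⟨h.1.symm, h.2.1.imp fun _ he => isEnds_comm he, h.2.2.2, h.2.2.1⟩⟩
  loopless := ⟨fun _ h => h.1 rfl⟩

/-- the vertices of the class at the boundary -/
def bd (s t : E → V) (π : V → V) (y : V) : Finset V :=
  univ.filter (fun v => π v = y ∧ ∃ w ∈ nbrs s t v, π w ≠ y)

/-- a walk either stays in the class or meets the boundary -/
theorem exit {π : V → V} {y : V} {k : ℕ} {v w : V} (hv : π v = y) (h : Within s t k v w) :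
    (π w = y ∧ ∃ p : (cl s t π y).Walk v w, p.length ≤ k) ∨
      ∃ b ∈ bd s t π y, ∃ p : (cl s t π y).Walk v b, p.length + 1 ≤ k := by
  induction k generalizing w with
  | zero =>
    have h0 : v = w := h
    subst h0
    exact Or.inl ⟨hv, SimpleGraph.Walk.nil, le_refl _⟩
  | succ k ih =>
    rcases h with h | ⟨z, e, h, he⟩
    · rcases ih h with ⟨h1, p, hp⟩ | ⟨b, hb, p, hp⟩
      · exact Or.inl ⟨h1, p, by omega⟩
      · exact Or.inr ⟨b, hb, p, by omega⟩
    · rcases ih h with ⟨h1, p, hp⟩ | ⟨b, hb, p, hp⟩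
      · by_cases hzw : z = w
        · subst hzw
          exact Or.inl ⟨h1, p, by omega⟩
        · by_cases hw : π w = y
          · have hadj : (cl s t π y).Adj z w := ⟨hzw, ⟨e, he⟩, h1, hw⟩
            refine Or.inl ⟨hw, p.append (SimpleGraph.Walk.cons hadj SimpleGraph.Walk.nil), ?_⟩
            rw [SimpleGraph.Walk.length_append]
            simp only [SimpleGraph.Walk.length_cons, SimpleGraph.Walk.length_nil]
            omega
          · exact Or.inr ⟨z, mem_filter.2 ⟨mem_univ _, h1, w,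
              mem_nbrs.2 ⟨Ne.symm hzw, e, he⟩, hw⟩, p, by omega⟩
      · exact Or.inr ⟨b, hb, p, by omega⟩

theorem bd_card (π : V → V) (y : V) :
    (bd s t π y).card ≤ (ct (fun e => π (s e)) (fun e => π (t e)) y).card := by
  classical
  rcases (bd s t π y).eq_empty_or_nonempty with h0 | h0
  · rw [h0]; exact Nat.zero_le _
  have hex : ∀ v ∈ bd s t π y, ∃ e, (s e = v ∧ π (t e) ≠ y) ∨ (π (s e) ≠ y ∧ t e = v) := by
    intro v hv
    obtain ⟨-, -, w, hw, hw'⟩ := mem_filter.1 hv
    obtain ⟨-, e, h1 | h1⟩ := mem_nbrs.1 hw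
    · exact ⟨e, Or.inl ⟨h1.1, by rw [h1.2]; exact hw'⟩⟩
    · exact ⟨e, Or.inr ⟨by rw [h1.1]; exact hw', h1.2⟩⟩
  have hne : Nonempty E := by
    obtain ⟨v, hv⟩ := h0
    obtain ⟨e, -⟩ := hex v hv
    exact ⟨e⟩
  choose! g hg using hex
  refine card_le_card_of_injOn g (fun v hv => ?_) ?_
  · have h2 : π v = y := (mem_filter.1 hv).2.1
    show g v ∈ ct (fun e => π (s e)) (fun e => π (t e)) y
    rw [mem_ct]
    rcases hg v hv with ⟨h5, h6⟩ | ⟨h5, h6⟩
    · rw [h5]; exact fun h => h6 (h.1 h2)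
    · rw [h6]; exact fun h => h5 (h.2 h2)
  · intro v hv v' hv' hvv
    have h2 : π v = y := (mem_filter.1 hv).2.1
    have h2' : π v' = y := (mem_filter.1 hv').2.1
    have h3 := hg v hv
    have h3' := hg v' hv'
    rw [← hvv] at h3'
    rcases h3 with ⟨h5, h6⟩ | ⟨h5, h6⟩ <;> rcases h3' with ⟨h7, h8⟩ | ⟨h7, h8⟩
    · exact h5.symm.trans h7
    · exact absurd ((congrArg π h5).trans h2) h7
    · exact absurd ((congrArg π h7).trans h2') h5
    · exact h6.symm.trans h8

/-- **Deep vertices.** A class with at least one and fewer than `d` boundary edges contains a vertex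
which is not isolated and whose ball, with its radius, is contained in the class. -/
theorem deep_ball (π : V → V) {d r : ℕ} {y : V}
    (hcyc : ∀ (v : V) (c : (under s t).Walk v v), c.IsCycle → c.length ≤ 2 * r →
      ∃ w ∈ c.support, (nbrs s t w).card < d)
    (h1 : 1 ≤ (ct (fun e => π (s e)) (fun e => π (t e)) y).card)
    (hd : (ct (fun e => π (s e)) (fun e => π (t e)) y).card < d) :
    ∃ v, π v = y ∧ (nbrs s t v).Nonempty ∧ ∀ w, Within s t (radius s t d r v) v w → π w = y := by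
  classical
  obtain ⟨v1, hv1, hv1n, hv1d⟩ := deep (s := s) (t := t) π h1 hd
  by_contra hcon
  -- all vertices of the class have at least `d` neighbours
  have hrich : ∀ v, π v = y → (nbrs s t v).Nonempty → d ≤ (nbrs s t v).card := by
    intro v hv hvn
    by_contra h2
    refine hcon ⟨v, hv, hvn, fun w hw => ?_⟩
    have h3 : radius s t d r v = 0 := by
      unfold radius
      rw [if_neg h2]
    rw [h3] at hw
    have h4 : v = w := hw
    rw [← h4, hv]
  have hrad : ∀ v, π v = y → (nbrs s t v).Nonempty → radius s t d r v = r := by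
    intro v hv hvn
    unfold radius
    rw [if_pos (hrich v hv hvn)]
  -- every vertex is close to the boundary
  have hclose : ∀ v, π v = y → (nbrs s t v).Nonempty →
      ∃ n, ∃ b ∈ bd s t π y, ∃ p : (cl s t π y).Walk v b, p.length = n ∧ n + 1 ≤ r := by
    intro v hv hvn
    by_contra h2
    refine hcon ⟨v, hv, hvn, fun w hw => ?_⟩
    rw [hrad v hv hvn] at hw
    rcases exit hv hw with h3 | ⟨b, hb, p, hp⟩
    · exact h3.1
    · exact absurd ⟨p.length, b, hb, p, rfl, hp⟩ h2
  set C : Finset V := univ.filter (fun v => π v = y ∧ (nbrs s t v).Nonempty) with hC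
  let P : V → ℕ → Prop := fun v n => ∃ b ∈ bd s t π y, ∃ p : (cl s t π y).Walk v b, p.length = n
  have hP : ∀ v ∈ C, ∃ n, P v n := by
    intro v hv
    obtain ⟨-, h2, h3⟩ := mem_filter.1 hv
    obtain ⟨n, b, hb, p, hp, -⟩ := hclose v h2 h3
    exact ⟨n, b, hb, p, hp⟩
  let f : V → ℕ := fun v => sInf {n | P v n}
  have hf1 : ∀ v ∈ C, P v (f v) := fun v hv => Nat.sInf_mem (hP v hv)
  have hf2 : ∀ v n, P v n → f v ≤ n := fun v n hn => Nat.sInf_le hn
  have hfr : ∀ v ∈ C, f v + 1 ≤ r := by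
    intro v hv
    obtain ⟨-, h2, h3⟩ := mem_filter.1 hv
    obtain ⟨n, b, hb, p, hp, hn⟩ := hclose v h2 h3
    have h4 := hf2 v n ⟨b, hb, p, hp⟩
    omega
  have hv1C : v1 ∈ C := mem_filter.2 ⟨mem_univ _, hv1, hv1n⟩
  obtain ⟨v, hvC, hvmax⟩ := exists_max_image C f ⟨v1, hv1C⟩
  have hpos : ∀ u ∈ C, f u = 0 → u ∈ bd s t π y := by
    intro u hu h0
    obtain ⟨b, hb, p, hp⟩ := hf1 u hu
    rw [h0] at hp
    have h2 := SimpleGraph.Walk.eq_of_length_eq_zero hp
    rw [h2]
    exact hb
  have hf_v1 : f v1 ≠ 0 := by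
    intro h0
    obtain ⟨-, -, w, hw, hw'⟩ := mem_filter.1 (hpos v1 hv1C h0)
    exact hw' (hv1d (hrich v1 hv1 hv1n) w hw)
  have hfv : 1 ≤ f v := by
    have := hvmax v1 hv1C
    omega
  obtain ⟨-, hvy, hvn⟩ := mem_filter.1 hvC
  -- the neighbours are in the class
  have hin : ∀ w ∈ nbrs s t v, π w = y := by
    intro w hw
    by_contra h2
    have h3 : v ∈ bd s t π y := mem_filter.2 ⟨mem_univ _, hvy, w, hw, h2⟩
    have h4 := hf2 v 0 ⟨v, h3, SimpleGraph.Walk.nil, rfl⟩
    omega
  have hnC : ∀ w ∈ nbrs s t v, w ∈ C := by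
    intro w hw
    obtain ⟨h2, e, he⟩ := mem_nbrs.1 hw
    exact mem_filter.2 ⟨mem_univ _, hin w hw, v, mem_nbrs.2 ⟨h2.symm, e, isEnds_comm he⟩⟩
  have hpath : ∀ w ∈ nbrs s t v, ∃ b, ∃ p : (cl s t π y).Walk w b, b ∈ bd s t π y ∧ p.IsPath ∧
      p.length ≤ f v := by
    intro w hw
    obtain ⟨b, hb, p, hp⟩ := hf1 w (hnC w hw)
    refine ⟨b, p.bypass, hb, p.bypass_isPath, ?_⟩
    have h2 := p.length_bypass_le
    have h3 := hvmax w (hnC w hw)
    omega
  have hne : ∃ w ∈ nbrs s t v, ∃ w' ∈ nbrs s t v, w ≠ w' ∧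
      ∃ b, ∃ p : (cl s t π y).Walk w b, ∃ p' : (cl s t π y).Walk w' b, b ∈ bd s t π y ∧ p.IsPath ∧
        p'.IsPath ∧ p.length ≤ f v ∧ p'.length ≤ f v := by
    have hc : (bd s t π y).card < (nbrs s t v).card := by
      have h2 := bd_card (s := s) (t := t) π y
      have h3 := hrich v hvy hvn
      omega
    have hch : ∀ w : V, ∃ b, w ∈ nbrs s t v → ∃ p : (cl s t π y).Walk w b, b ∈ bd s t π y ∧
        p.IsPath ∧ p.length ≤ f v := by
      intro w
      by_cases hw : w ∈ nbrs s t v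
      · obtain ⟨b, p, h2⟩ := hpath w hw
        exact ⟨b, fun _ => ⟨p, h2⟩⟩
      · exact ⟨w, fun h => absurd h hw⟩
    choose β hβ using hch
    obtain ⟨w, hw, w', hw', hww, hb⟩ := exists_ne_map_eq_of_card_lt_of_maps_to hc
      (f := β) (fun w hw => by
        obtain ⟨p, h2, -⟩ := hβ w hw
        exact h2)
    obtain ⟨p, h2, h3, h4⟩ := hβ w hw
    obtain ⟨p', h2', h3', h4'⟩ := hβ w' hw'
    rw [← hb] at h2'
    exact ⟨w, hw, w', hw', hww, β w, p, p'.copy rfl hb.symm, h2, h3, by simpa using h3', h4,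
      by simpa using h4'⟩
  obtain ⟨w, hw, w', hw', hww, b, p, p', hb, hp, hp', hl, hl'⟩ := hne
  -- `v` is not on the paths
  have hnot : ∀ u ∈ nbrs s t v, ∀ q : (cl s t π y).Walk u b, q.length ≤ f v → v ∉ q.support := by
    intro u hu q hq hvq
    have h2 := q.take_spec hvq
    have h3 : (q.takeUntil v hvq).length + (q.dropUntil v hvq).length = q.length := by
      rw [← SimpleGraph.Walk.length_append, h2]
    have h4 := hf2 v _ ⟨b, hb, q.dropUntil v hvq, rfl⟩
    have h5 : (q.takeUntil v hvq).length ≠ 0 := by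
      intro h0
      exact (mem_nbrs.1 hu).1 (SimpleGraph.Walk.eq_of_length_eq_zero h0)
    omega
  have hadj : ∀ u ∈ nbrs s t v, (cl s t π y).Adj v u := by
    intro u hu
    obtain ⟨h2, e, he⟩ := mem_nbrs.1 hu
    exact ⟨h2.symm, ⟨e, he⟩, hvy, hin u hu⟩
  have hq : (SimpleGraph.Walk.cons (hadj w hw) p).IsPath :=
    hp.cons (hnot w hw p hl)
  have hq' : (SimpleGraph.Walk.cons (hadj w' hw') p').IsPath :=
    hp'.cons (hnot w' hw' p' hl')
  have hqq : SimpleGraph.Walk.cons (hadj w hw) p ≠ SimpleGraph.Walk.cons (hadj w' hw') p' := by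
    intro h0
    have h2 := congrArg SimpleGraph.Walk.support h0
    rw [SimpleGraph.Walk.support_cons, SimpleGraph.Walk.support_cons] at h2
    have h3 := (List.cons.inj h2).2
    rw [SimpleGraph.Walk.support_eq_cons p, SimpleGraph.Walk.support_eq_cons p'] at h3
    exact hww (List.cons.inj h3).1
  obtain ⟨u, c, hc, hcl⟩ := exists_cycle _ _ hq hq' hqq
  rw [SimpleGraph.Walk.length_cons, SimpleGraph.Walk.length_cons] at hcl
  have hle : cl s t π y ≤ under s t := fun a b h => ⟨h.1, h.2.1⟩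
  have h2r := hfr v hvC
  obtain ⟨z, hz, hzd⟩ := hcyc u (c.mapLe hle) (hc.mapLe hle) (by
    have h3 : (c.mapLe hle).length = c.length := SimpleGraph.Walk.length_map _ _
    omega)
  have hzc : z ∈ c.support := by
    have h3 : (c.mapLe hle).support = c.support := by
      simp [SimpleGraph.Walk.mapLe]
    rw [h3] at hz
    exact hz
  -- the vertices of the circuit are in the class
  have hzy : π z = y ∧ (nbrs s t z).Nonempty := by
    have h3 : ¬ c.Nil := hc.not_nil
    obtain ⟨z', hzz⟩ : ∃ z', (cl s t π y).Adj z z' := by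
      have h4 := (SimpleGraph.Walk.mem_support_iff_exists_mem_edges_of_not_nil h3).1 hzc
      obtain ⟨e, he, hze⟩ := h4
      have h5 := c.edges_subset_edgeSet he
      induction e using Sym2.ind with
      | _ a a' =>
        rw [SimpleGraph.mem_edgeSet] at h5
        rcases Sym2.mem_iff.1 hze with h6 | h6
        · exact ⟨a', h6 ▸ h5⟩
        · exact ⟨a, h6 ▸ h5.symm⟩
    exact ⟨hzz.2.2.1, z', mem_nbrs.2 ⟨hzz.1.symm, hzz.2.1⟩⟩
  have h3 := hrich z hzy.1 hzy.2
  omega

end Pool.Agent.U605.DD
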